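import Mathlib
import Pool.Agent.TH497.PW.IntFlow
import Pool.Agent.TH362.FP.Pos
import Pool.Agent.Y335.FL.Main
import Pool.Agent.Y335.FL.Local11
import Pool.Agent.Run7.h85.FL.Anti

set_option autoImplicit false

/-!
# Nowhere-zero 5-flows in graphs without three anticomplete circuits

Two disjoint sets of vertices are *anticomplete* if no edge joins them.  Every bridgeless multigraph
which does not contain three pairwise anticomplete circuits (for a simple graph: which does not have
the disjoint union of three triangles as an induced minor) has a nowhere-zero 5-flow, and the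
characteristic polynomial of its bond matroid is positive at all integers `q ≥ 5`.  These graphs have
been studied under the name `O_3`-free graphs (graphs with induced cycle packing number at most two).
The class contains all complete graphs, all graphs in which any two circuits have a common vertex or
are joined by an edge, and so on.

The theorem is a little stronger: it is sufficient that there are no circuits `C_1`, `C_2`, `C_3`,
pairwise anticomplete, and a set `B` of vertices which contains `C_2` and `C_3`, is anticomplete to
`C_1` and spans at least `|B| + 12` edges.  For example it is sufficient that, for every circuit `C`,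
the graph `G - N[C]` has cyclomatic number at most twelve.

More generally let `F` be the union of a chain of cycles, each with at most eleven edges outside the
union of the earlier ones; it is sufficient that the contracted graph `G / F` has this property.

Proof.  The class is closed under contractions: the preimages of the sets have the same properties.
Let `G` be a counterexample with as few edges as possible.  Circuits with at most eleven edges can be
contracted (starting library `Y335/FL`), and so can one of two edges which form a cut; hence `G` has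
girth `g ≥ 12` and all degrees are at least three (apart from isolated vertices).  Let `C` be a
shortest circuit and let `B` be the set of the vertices with distance at least two from `C`.  A vertex
of `B` has at most one neighbour outside of `B`, and the vertices of `B` with such a neighbour are
independent, because another edge would give a circuit with at most `g / 2 + 5 < g` edges.  So `G[B]`
has minimum degree two, and there are at least 24 vertices of degree at least three in `G[B]`, namely
vertices with distance three from six consecutive vertices of `C`.  Let `C'` be a shortest circuit of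
`G[B]`, and let `R` be the set of the vertices of `B` which have distance at least two from `C'`.
Similarly each vertex of `R` has at most one neighbour in `B` outside of `R`, and the vertices with
such a neighbour are independent.  Let `L` be the set of the vertices of `R` which have both kinds of
neighbours outside of `R`, and `Z` the set of those which have none.  The sum of the degrees of `G[R]`
is at least `2 |R| + |Z| - |L|`, and it remains to show `|L| ≤ |Z|`.  Every vertex `w` of `L` has a
neighbour `z` in `Z`.  A vertex `z` of `Z` has at most two neighbours in `L`; if it has two, then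
`g = 12` and the two vertices lead to antipodal vertices of `C`, and each vertex of `C` has distance
at most three in `C` from one of them; the same holds for `C'`.  It follows that `z` has a neighbour
`v` in `Z` which has no neighbour in `L`, and that no other neighbour of `v` in `Z` has a neighbour in
`L`; so we can map the second neighbour of `z` in `L` to `v`.  Therefore `R` spans at least `|R|`
edges, and `R` contains a third circuit.  Finally a flow of `G / F` is lifted along the chain (library
`Y335/FL`; helper335, `Run7/h335/MF/Mod`).
-/

namespace Pool.Agent.Results.MP_974d84_co.AnticompleteCircuits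

open Pool.Agent.TH497.PW

variable {V E : Type}

/-- The edges with exactly one end in `X`. -/
def boundary [DecidableEq V] [Fintype E] (src dst : E → V) (X : Finset V) : Finset E :=
  Finset.univ.filter (fun e => ¬ (src e ∈ X ↔ dst e ∈ X))

/-- The edges with two different ends in `X` (loops are not counted, parallel edges are). -/
def inner [DecidableEq V] [Fintype E] (src dst : E → V) (X : Finset V) : Finset E :=
  Finset.univ.filter (fun e => src e ∈ X ∧ dst e ∈ X ∧ src e ≠ dst e)

/-- The sets `X` and `Y` are disjoint and no edge joins them. -/
def Anticomplete (src dst : E → V) (X Y : Finset V) : Prop :=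
  (∀ v ∈ X, v ∉ Y) ∧ ∀ e, ¬ (src e ∈ X ∧ dst e ∈ Y) ∧ ¬ (src e ∈ Y ∧ dst e ∈ X)

/-- The set `X` is not empty and spans at least as many edges (without loops) as it has vertices.  So
the subgraph induced by `X` contains a circuit with at least two edges, and the vertex set of such a
circuit always has this property. -/
def Cyclic [DecidableEq V] [Fintype E] (src dst : E → V) (X : Finset V) : Prop :=
  X.Nonempty ∧ X.card ≤ (inner src dst X).card

/-- There are three pairwise anticomplete circuits (sets `A`, `C`, `D` which contain circuits), two of
them in a set `B` which is anticomplete to `A` and spans at least `|B| + 12` edges. -/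
def ThreeCircuits [DecidableEq V] [Fintype E] (src dst : E → V) : Prop :=
  ∃ A B C D : Finset V, Cyclic src dst A ∧ Cyclic src dst C ∧ Cyclic src dst D ∧
    Anticomplete src dst A B ∧ C ⊆ B ∧ D ⊆ B ∧ Anticomplete src dst C D ∧
    B.card + 12 ≤ (inner src dst B).card

/-- The map `r` contracts the edges of `F` and nothing else: the ends of every edge of `F` have the
same image, and no set `Y` of vertices without boundary edges in `F` separates `v` and `r v` (so `v`
and `r v` are in the same component of the graph formed by the edges of `F`). The contracted graph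
`G / F` is the graph in which the ends of the edge `e` are `r (src e)` and `r (dst e)`. -/
def Contracts [DecidableEq V] [Fintype E] (src dst : E → V) (F : Finset E) (r : V → V) : Prop :=
  (∀ e ∈ F, r (src e) = r (dst e)) ∧
    ∀ v, ∀ Y : Finset V, Disjoint (boundary src dst Y) F → (v ∈ Y ↔ r v ∈ Y)

/-- Kirchhoff's law. -/
def IsFlow [DecidableEq V] [Fintype E] (src dst : E → V) (f : E → ℤ) : Prop :=
  ∀ v : V, ∑ e ∈ Finset.univ.filter (fun e => src e = v), f e
    = ∑ e ∈ Finset.univ.filter (fun e => dst e = v), f e

/-- The number of the components of the graph with the vertices `V` and the edges `A`. -/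
noncomputable def components (src dst : E → V) (A : Finset E) : ℕ :=
  Nat.card (SimpleGraph.fromRel
    (fun u v : V => ∃ e ∈ A, src e = u ∧ dst e = v)).ConnectedComponent

/-- The rank of `A` in the cycle matroid of the graph. -/
noncomputable def cycleRank [Fintype V] (src dst : E → V) (A : Finset E) : ℕ :=
  Fintype.card V - components src dst A

/-- The rank of `A` in the bond matroid of the graph (the dual of the cycle matroid). -/
noncomputable def bondRank [Fintype V] [Fintype E] [DecidableEq E] (src dst : E → V)
    (A : Finset E) : ℕ :=
  A.card + cycleRank src dst Aᶜ - cycleRank src dst Finset.univ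

/-- The characteristic polynomial of the bond matroid at the integer `x`. -/
noncomputable def bondCharPoly [Fintype V] [Fintype E] [DecidableEq E] (src dst : E → V)
    (x : ℤ) : ℤ :=
  ∑ A : Finset E, (-1) ^ A.card * x ^ (bondRank src dst Finset.univ - bondRank src dst A)

theorem isFlow_iff [DecidableEq V] [Fintype E] (src dst : E → V) (f : E → ℤ) :
    IsFlow src dst f ↔
      ∀ v, ∑ e, f e * ((if src e = v then 1 else 0) - (if dst e = v then 1 else 0)) = 0 := by
  unfold IsFlow
  refine forall_congr' fun v => ?_
  rw [Finset.sum_filter, Finset.sum_filter, ← sub_eq_zero, ← Finset.sum_sub_distrib]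
  have : ∀ e, (if src e = v then f e else 0) - (if dst e = v then f e else 0)
      = f e * ((if src e = v then 1 else 0) - (if dst e = v then 1 else 0)) := by
    intro e
    by_cases h1 : src e = v <;> by_cases h2 : dst e = v <;> simp [h1, h2]
  rw [Finset.sum_congr rfl (fun e _ => this e)]

theorem nzf [Fintype V] [DecidableEq V] [Fintype E] [DecidableEq E] (src dst : E → V)
    (h : Pool.Agent.TH676.Z.FlowOn src dst ∅ ∅) : NZF src dst := by
  obtain ⟨f, h1, _, h3⟩ := h
  refine ⟨f, fun e => h3 e (Finset.notMem_empty _) (Finset.notMem_empty _), fun x => ?_⟩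
  rw [← h1 x]
  unfold Pool.Agent.TH676.Z.bd
  refine Finset.sum_congr rfl fun e _ => ?_
  unfold ic
  by_cases h4 : src e = x <;> by_cases h5 : dst e = x <;> simp [h4, h5]

theorem charPoly_pos [Fintype V] [DecidableEq V] [Fintype E] [DecidableEq E] (src dst : E → V)
    (f : E → ℤ) (h1 : IsFlow src dst f) (h2 : ∀ e, 1 ≤ |f e| ∧ |f e| ≤ 4) (q : ℕ) (hq : 5 ≤ q) :
    0 < bondCharPoly src dst q :=
  Pool.Agent.TH362.FP.chr_pos src dst f h2 h1 q hq

theorem threeCircuits_of [Fintype V] [DecidableEq V] [Fintype E] [DecidableEq E] (src dst : E → V)
    (h : Pool.Agent.Run7.H85.FL.AntiP src dst) : ThreeCircuits src dst := by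
  obtain ⟨A, B, C, D, a1, a2, a3, a4, a5, a6, a7, a8, a9, a10, a11⟩ := h
  exact ⟨A, B, C, D, ⟨a1, a8⟩, ⟨a2, a10⟩, ⟨a3, a11⟩, a4, fun v hv => a5 v hv, fun v hv => a6 v hv,
    a7, a9⟩

theorem conclude [Fintype V] [DecidableEq V] [Fintype E] [DecidableEq E] (src dst : E → V)
    (h : Pool.Agent.TH676.Z.FlowOn src dst ∅ ∅) :
    (∃ f : E → ℤ, IsFlow src dst f ∧ ∀ e, 1 ≤ |f e| ∧ |f e| ≤ 4) ∧
      ∀ q : ℕ, 5 ≤ q → 0 < bondCharPoly src dst q := by
  obtain ⟨F, hF, hF0⟩ := int_flow src dst (nzf src dst h)
  have hF1 := (isFlow_iff src dst F).mpr hF0
  exact ⟨⟨F, hF1, hF⟩, fun q hq => charPoly_pos src dst F hF1 hF q hq⟩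

/-- the reduction modulo five of a flow with values in `{0, 1, -1}` -/
theorem mod5 [Fintype V] [DecidableEq V] [Fintype E] [DecidableEq E] (src dst : E → V)
    (C : Finset E) (h : ∃ z : E → ℤ, IsFlow src dst z ∧ (∀ e, z e = 0 ∨ z e = 1 ∨ z e = -1) ∧
      ∀ e, z e ≠ 0 ↔ e ∈ C) :
    ∃ z : E → ZMod 5, (∀ v, Pool.Agent.TH676.Z.bd src dst z v = 0) ∧
      (∀ e, z e = 0 ∨ z e = 1 ∨ z e = -1) ∧ ∀ e, z e ≠ 0 ↔ e ∈ C := by
  obtain ⟨z, h1, h2, h3⟩ := h
  refine ⟨fun e => ((z e : ℤ) : ZMod 5), fun v => ?_, fun e => ?_, fun e => ?_⟩
  · have h4 := h1 v
    rw [Finset.sum_filter, Finset.sum_filter, ← sub_eq_zero, ← Finset.sum_sub_distrib] at h4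
    have h5 := congrArg (fun t : ℤ => (t : ZMod 5)) h4
    simp only [Int.cast_sum, Int.cast_sub, Int.cast_zero] at h5
    refine Eq.trans ?_ h5
    unfold Pool.Agent.TH676.Z.bd
    rw [Finset.sum_sub_distrib, Finset.sum_sub_distrib]
    congr 1 <;>
    · refine Finset.sum_congr rfl fun e _ => ?_
      split_ifs <;> simp
  · rcases h2 e with h | h | h <;> simp [h]
  · rw [← h3 e]
    have h10 : (1 : ZMod 5) ≠ 0 := by decide
    rcases h2 e with h | h | h <;> simp [h, h10]

/-- **Theorem.** Let `src dst : E → V` be a finite multigraph (loops and parallel edges allowed)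
without an edge cut consisting of exactly one edge, let `C` be a chain of cycles each of which has at
most eleven edges outside of the union of the earlier ones (for instance the empty chain), and let `r`
contract the union of the chain.  If the contracted graph does not have three pairwise anticomplete
circuits, two of which are contained in a set `B` which is anticomplete to the first one and spans at
least `|B| + 12` edges, then the graph has an integer flow with values in `{±1, ±2, ±3, ±4}`, and the
characteristic polynomial of its bond matroid is positive at all integers `q ≥ 5`. -/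
theorem result :
    ∀ (V E : Type) [Fintype V] [DecidableEq V] [Fintype E] [DecidableEq E] (src dst : E → V)
      (m : ℕ) (C : Fin m → Finset E) (r : V → V),
      (∀ Y : Finset V, (boundary src dst Y).card ≠ 1) →
      (∀ i, ∃ z : E → ℤ, IsFlow src dst z ∧ (∀ e, z e = 0 ∨ z e = 1 ∨ z e = -1) ∧
        ∀ e, z e ≠ 0 ↔ e ∈ C i) →
      (∀ i, (C i \ (Finset.univ.filter (fun j => j < i)).biUnion C).card ≤ 11) →
      Contracts src dst (Finset.univ.biUnion C) r →
      ¬ ThreeCircuits (r ∘ src) (r ∘ dst) →
      (∃ f : E → ℤ, IsFlow src dst f ∧ ∀ e, 1 ≤ |f e| ∧ |f e| ≤ 4) ∧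
      ∀ q : ℕ, 5 ≤ q → 0 < bondCharPoly src dst q := by
  intro V E _ _ _ _ src dst m C r hb hC hnew hr hT
  have h3 := Pool.Agent.Run7.H85.FL.flow_anti_mod Pool.Agent.Y335.FL.contract_all
    Pool.Agent.Y335.FL.quot' (s := src) (d := dst) (F := Finset.univ.biUnion C) (r := r)
    (fun Y _ => by rw [Finset.sdiff_empty]; exact hb Y) hr
    (fun h => hT (threeCircuits_of (r ∘ src) (r ∘ dst) h))
  exact conclude src dst
    (Pool.Agent.Y335.FL.lift_all V E src dst m C (fun i => mod5 src dst (C i) (hC i)) hnew h3)

/-- Consequence: graphs without three pairwise anticomplete circuits (`O_3`-free graphs). -/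
theorem noThreeAnticompleteCircuits (V E : Type) [Fintype V] [DecidableEq V] [Fintype E]
    [DecidableEq E] (src dst : E → V) (hb : ∀ Y : Finset V, (boundary src dst Y).card ≠ 1)
    (h : ¬ ∃ X Y Z : Finset V, Cyclic src dst X ∧ Cyclic src dst Y ∧ Cyclic src dst Z ∧
      Anticomplete src dst X Y ∧ Anticomplete src dst X Z ∧ Anticomplete src dst Y Z) :
    ∃ f : E → ℤ, IsFlow src dst f ∧ ∀ e, 1 ≤ |f e| ∧ |f e| ≤ 4 := by
  refine (result V E src dst 0 (fun _ => ∅) id hb (fun i => i.elim0) (fun i => i.elim0)
    ⟨fun e he => by simp at he, fun v Y _ => Iff.rfl⟩ ?_).1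
  rintro ⟨A, B, C, D, h1, h2, h3, h4, h5, h6, h7, -⟩
  exact h ⟨A, C, D, h1, h2, h3, ⟨fun v hv hv' => h4.1 v hv (h5 hv'),
      fun e => ⟨fun h8 => (h4.2 e).1 ⟨h8.1, h5 h8.2⟩, fun h8 => (h4.2 e).2 ⟨h5 h8.1, h8.2⟩⟩⟩,
    ⟨fun v hv hv' => h4.1 v hv (h6 hv'),
      fun e => ⟨fun h8 => (h4.2 e).1 ⟨h8.1, h6 h8.2⟩, fun h8 => (h4.2 e).2 ⟨h6 h8.1, h8.2⟩⟩⟩, h7⟩

/-- Consequence: graphs such that the graph far away from each circuit has fewer than `|B| + 12`
edges (its vertex set being `B`). -/
theorem fewEdgesFarFromCircuits (V E : Type) [Fintype V] [DecidableEq V] [Fintype E]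
    [DecidableEq E] (src dst : E → V) (hb : ∀ Y : Finset V, (boundary src dst Y).card ≠ 1)
    (h : ∀ A B : Finset V, Cyclic src dst A → Anticomplete src dst A B →
      (inner src dst B).card < B.card + 12) :
    ∃ f : E → ℤ, IsFlow src dst f ∧ ∀ e, 1 ≤ |f e| ∧ |f e| ≤ 4 := by
  refine (result V E src dst 0 (fun _ => ∅) id hb (fun i => i.elim0) (fun i => i.elim0)
    ⟨fun e he => by simp at he, fun v Y _ => Iff.rfl⟩ ?_).1
  rintro ⟨A, B, C, D, h1, -, -, h4, -, -, -, h8⟩
  have h9 : B.card + 12 ≤ (inner src dst B).card := h8
  have h10 := h A B h1 h4
  omega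

end Pool.Agent.Results.MP_974d84_co.AnticompleteCircuits
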