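import Mathlib
import Pool.Agent.TH497.PW.IntFlow
import Pool.Agent.TH362.FP.Pos
import Pool.Agent.Y335.FL.Main
import Pool.Agent.Run7.h315.CD.Cover

set_option autoImplicit false

/-!
# Graphs with a connected vertex cover of at most 93 vertices (MP_974d84_co)

Let `G` be a bridgeless multigraph and let `D_1, ..., D_k` be connected sets of vertices (which may
overlap) with real weights `w_i ≥ 0` such that for every edge which is not a loop the weights of the
sets `D_i` which contain an end of the edge add up to at least one.  If `∑ w_i (2 |D_i| + 1) < 189`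
and `∑ w_i max(|D_i|, 2) ≤ 93` then `G` has a nowhere-zero 5-flow, and the characteristic polynomial
of its bond matroid is positive at all integers `q ≥ 5`.

In particular (`connected`) this holds for all bridgeless graphs with a connected vertex cover of at
most 93 vertices.  The starting results have vertex cover number at most 62, which corresponds to
one-element sets `D_i` (`3 |S| < 189`).  (For Tutte's 12-cage, a cubic graph with 126 vertices and 189
edges, a vertex cover `S` has at most `2 |S| + c` edges at its vertices, where `c` is the number of the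
components of the graph induced by `S`, so that `2 |S| + c ≥ 189`.)  More generally let `F` be the
union of a chain of cycles, each with at most eleven edges outside the union of the earlier ones; then
it is sufficient that the contracted graph `G / F` satisfies the condition (`result`; the chain may be
empty).  The order, the degrees and the connectivity are arbitrary.

Proof.  The class is closed under contractions.  Let `G` be a counterexample with as few edges as
possible.  Circuits with at most eleven edges can be contracted (library `Y335/FL`), and so can one of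
two edges which form a cut; hence (library `Y358/IN`) `G` has girth at least twelve and all degrees
are at least three (apart from isolated vertices).  Let `n ≥ 126` be the number of the vertices which
are not isolated.

(1) Let `C` be a connected set with at least two vertices.  By the star inequality
(`Run7/h315/CD/Star`, used also for `MP_c8786f_co.ConnectedDomination`)
`62 ∑ (d(x) - 1) ≤ |C| (n - 2)`, where the sum extends over all vertices `x` of `C`.

(2) At most `∑ d(x) - (|C| - 1)` edges have an end in `C`, as `C` is connected.  So this number is at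
most `(|C| (n - 2) + 62) / 62`, and for one-element sets it is at most `(n - 33) / 31`.  In both cases
it is at most `(max(|C|, 2) (n - 126) + 62 (2 |C| + 1)) / 62`.

(3) So the weighted sum of the numbers of the edges which meet `D_i` is less than
`(93 (n - 126) + 62 * 189) / 62 = 3 n / 2`.  But `G` has at least `3 n / 2` edges.

(4) A flow of `G / F` is lifted along the chain (library `Y335/FL`).
-/

namespace Pool.Agent.Results.MP_974d84_co.ConnectedVertexCover

open Pool.Agent.TH497.PW

variable {V E : Type}

/-- The edges with exactly one end in `X`. -/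
def boundary [DecidableEq V] [Fintype E] (src dst : E → V) (X : Finset V) : Finset E :=
  Finset.univ.filter (fun e => ¬ (src e ∈ X ↔ dst e ∈ X))

/-- Kirchhoff's law. -/
def IsFlow [DecidableEq V] [Fintype E] (src dst : E → V) (f : E → ℤ) : Prop :=
  ∀ v : V, ∑ e ∈ Finset.univ.filter (fun e => src e = v), f e
    = ∑ e ∈ Finset.univ.filter (fun e => dst e = v), f e

/-- The map `r` contracts the edges of `F` and nothing else: the ends of every edge of `F` have the
same image, and no set `Y` of vertices without boundary edges in `F` separates `v` and `r v` (so `v`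
and `r v` are in the same component of the graph formed by the edges of `F`). The contracted graph
`G / F` is the graph in which the ends of the edge `e` are `r (src e)` and `r (dst e)`. -/
def Contracts [DecidableEq V] [Fintype E] (src dst : E → V) (F : Finset E) (r : V → V) : Prop :=
  (∀ e ∈ F, r (src e) = r (dst e)) ∧
    ∀ v, ∀ Y : Finset V, Disjoint (boundary src dst Y) F → (v ∈ Y ↔ r v ∈ Y)

/-- The vertices `x` and `y` are different and joined by an edge. -/
def Joined (src dst : E → V) (x y : V) : Prop :=
  x ≠ y ∧ ∃ e, (src e = x ∧ dst e = y) ∨ (src e = y ∧ dst e = x)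

/-- The set `D` is nonempty and connected: whenever `A` is a nonempty subset of `D` and not the whole
of `D`, some edge joins a vertex of `A` and a vertex of `D` outside `A`. -/
def ConnectedSet (src dst : E → V) (D : Finset V) : Prop :=
  D.Nonempty ∧ ∀ A ⊆ D, A.Nonempty → A ≠ D → ∃ x ∈ A, ∃ y ∈ D, y ∉ A ∧ Joined src dst x y

/-- The number of the components of the graph with the vertices `V` and the edges `A`. -/
noncomputable def components (src dst : E → V) (A : Finset E) : ℕ :=
  Nat.card (SimpleGraph.fromRel
    (fun u v : V => ∃ e ∈ A, src e = u ∧ dst e = v)).ConnectedComponent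

/-- The rank of `A` in the cycle matroid of the graph. -/
noncomputable def cycleRank [Fintype V] (src dst : E → V) (A : Finset E) : ℕ :=
  Fintype.card V - components src dst A

/-- The rank of `A` in the bond matroid of the graph (the dual of the cycle matroid). -/
noncomputable def bondRank [Fintype V] [Fintype E] [DecidableEq E] (src dst : E → V)
    (A : Finset E) : ℕ :=
  A.card + cycleRank src dst Aᶜ - cycleRank src dst Finset.univ

/-- The characteristic polynomial of the bond matroid at the integer `x`. -/
noncomputable def bondCharPoly [Fintype V] [Fintype E] [DecidableEq E] (src dst : E → V)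
    (x : ℤ) : ℤ :=
  ∑ A : Finset E, (-1) ^ A.card * x ^ (bondRank src dst Finset.univ - bondRank src dst A)

theorem isFlow_iff [DecidableEq V] [Fintype E] (src dst : E → V) (f : E → ℤ) :
    IsFlow src dst f ↔
      ∀ v, ∑ e, f e * ((if src e = v then 1 else 0) - (if dst e = v then 1 else 0)) = 0 := by
  unfold IsFlow
  refine forall_congr' fun v => ?_
  rw [Finset.sum_filter, Finset.sum_filter, ← sub_eq_zero, ← Finset.sum_sub_distrib]
  have : ∀ e, (if src e = v then f e else 0) - (if dst e = v then f e else 0)
      = f e * ((if src e = v then 1 else 0) - (if dst e = v then 1 else 0)) := by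
    intro e
    by_cases h1 : src e = v <;> by_cases h2 : dst e = v <;> simp [h1, h2]
  rw [Finset.sum_congr rfl (fun e _ => this e)]

theorem nzf [Fintype V] [DecidableEq V] [Fintype E] [DecidableEq E] (src dst : E → V)
    (h : Pool.Agent.TH676.Z.FlowOn src dst ∅ ∅) : NZF src dst := by
  obtain ⟨f, h1, _, h3⟩ := h
  refine ⟨f, fun e => h3 e (Finset.notMem_empty _) (Finset.notMem_empty _), fun x => ?_⟩
  rw [← h1 x]
  unfold Pool.Agent.TH676.Z.bd
  refine Finset.sum_congr rfl fun e _ => ?_
  unfold ic
  by_cases h4 : src e = x <;> by_cases h5 : dst e = x <;> simp [h4, h5]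

theorem charPoly_pos [Fintype V] [DecidableEq V] [Fintype E] [DecidableEq E] (src dst : E → V)
    (f : E → ℤ) (h1 : IsFlow src dst f) (h2 : ∀ e, 1 ≤ |f e| ∧ |f e| ≤ 4) (q : ℕ) (hq : 5 ≤ q) :
    0 < bondCharPoly src dst q :=
  Pool.Agent.TH362.FP.chr_pos src dst f h2 h1 q hq

/-- the reduction modulo five of a flow with values in `{0, 1, -1}` -/
theorem mod5 [Fintype V] [DecidableEq V] [Fintype E] [DecidableEq E] (src dst : E → V)
    (C : Finset E) (h : ∃ z : E → ℤ, IsFlow src dst z ∧ (∀ e, z e = 0 ∨ z e = 1 ∨ z e = -1) ∧
      ∀ e, z e ≠ 0 ↔ e ∈ C) :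
    ∃ z : E → ZMod 5, (∀ v, Pool.Agent.TH676.Z.bd src dst z v = 0) ∧
      (∀ e, z e = 0 ∨ z e = 1 ∨ z e = -1) ∧ ∀ e, z e ≠ 0 ↔ e ∈ C := by
  obtain ⟨z, h1, h2, h3⟩ := h
  refine ⟨fun e => ((z e : ℤ) : ZMod 5), fun v => ?_, fun e => ?_, fun e => ?_⟩
  · have h4 := h1 v
    rw [Finset.sum_filter, Finset.sum_filter, ← sub_eq_zero, ← Finset.sum_sub_distrib] at h4
    have h5 := congrArg (fun t : ℤ => (t : ZMod 5)) h4
    simp only [Int.cast_sum, Int.cast_sub, Int.cast_zero] at h5
    refine Eq.trans ?_ h5
    unfold Pool.Agent.TH676.Z.bd
    rw [Finset.sum_sub_distrib, Finset.sum_sub_distrib]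
    congr 1 <;>
    · refine Finset.sum_congr rfl fun e _ => ?_
      split_ifs <;> simp
  · rcases h2 e with h | h | h <;> simp [h]
  · rw [← h3 e]
    have h10 : (1 : ZMod 5) ≠ 0 := by decide
    rcases h2 e with h | h | h <;> simp [h, h10]

theorem joined_iff [Fintype V] [DecidableEq V] [Fintype E] [DecidableEq E] {src dst : E → V}
    {x y : V} : Joined src dst x y ↔ Pool.Agent.TH676.Z.Adj src dst x y := Iff.rfl

theorem cn_of [Fintype V] [DecidableEq V] [Fintype E] [DecidableEq E] {src dst : E → V}
    {D : Finset V} (h : ConnectedSet src dst D) : Run7.h315.CD.Cn src dst D := by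
  classical
  obtain ⟨⟨x0, hx0⟩, hD⟩ := h
  obtain ⟨A, hA, hmax⟩ := Finset.exists_max_image
    (D.powerset.filter (fun A => Run7.h315.CD.Cn src dst A)) Finset.card
    ⟨{x0}, Finset.mem_filter.2 ⟨Finset.mem_powerset.2 (Finset.singleton_subset_iff.2 hx0),
      Run7.h315.CD.Cn.one x0⟩⟩
  obtain ⟨hA1, hA2⟩ := Finset.mem_filter.1 hA
  have hA1 := Finset.mem_powerset.1 hA1
  by_cases hAD : A = D
  · rw [← hAD]
    exact hA2
  · exfalso
    have hne : A.Nonempty := by
      rw [← Finset.card_pos]
      have := hmax {x0} (Finset.mem_filter.2 ⟨Finset.mem_powerset.2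
        (Finset.singleton_subset_iff.2 hx0), Run7.h315.CD.Cn.one x0⟩)
      rw [Finset.card_singleton] at this
      exact this
    obtain ⟨x, hx, y, hy, hyA, hxy⟩ := hD A hA1 hne hAD
    have := hmax (insert y A) (Finset.mem_filter.2 ⟨Finset.mem_powerset.2
      (Finset.insert_subset hy hA1), Run7.h315.CD.Cn.add hA2 hx hxy⟩)
    rw [Finset.card_insert_of_notMem hyA] at this
    omega

open Classical in
/-- Let `src dst : E → V` be a bridgeless multigraph, let `C` be a chain of cycles each of which has at
most eleven edges outside of the union of the earlier ones (for instance the empty chain), and let `r`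
contract the union of the chain.  Let `D i` be connected sets of the contracted graph with weights
`w i ≥ 0` such that for each edge of the contracted graph which is not a loop the weights of the sets
`D i` which contain an end of the edge add up to at least one.  If `∑ w i * (2 * |D i| + 1) < 189` and
`∑ w i * max |D i| 2 ≤ 93` then the graph has a nowhere-zero 5-flow, and the characteristic polynomial
of the bond matroid is positive at all integers `q ≥ 5`. -/
theorem result :
    ∀ (V E ι : Type) [Fintype V] [DecidableEq V] [Fintype E] [DecidableEq E] [Fintype ι]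
      (src dst : E → V) (m : ℕ) (C : Fin m → Finset E) (r : V → V) (D : ι → Finset V) (w : ι → ℝ),
      (∀ Y : Finset V, (boundary src dst Y).card ≠ 1) →
      (∀ i, ∃ z : E → ℤ, IsFlow src dst z ∧ (∀ e, z e = 0 ∨ z e = 1 ∨ z e = -1) ∧
        ∀ e, z e ≠ 0 ↔ e ∈ C i) →
      (∀ i, (C i \ (Finset.univ.filter (fun j => j < i)).biUnion C).card ≤ 11) →
      Contracts src dst (Finset.univ.biUnion C) r →
      (∀ i, 0 ≤ w i) →
      (∀ i, ConnectedSet (r ∘ src) (r ∘ dst) (D i)) →
      ∑ i, w i * (2 * (D i).card + 1) < 189 →
      ∑ i, w i * max ((D i).card : ℝ) 2 ≤ 93 →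
      (∀ e, r (src e) ≠ r (dst e) → 1 ≤ ∑ i, if r (src e) ∈ D i ∨ r (dst e) ∈ D i then w i else 0) →
      (∃ f : E → ℤ, IsFlow src dst f ∧ ∀ e, 1 ≤ |f e| ∧ |f e| ≤ 4) ∧
      ∀ q : ℕ, 5 ≤ q → 0 < bondCharPoly src dst q := by
  intro V E ι _ _ _ _ _ src dst m C r D w hb hC hnew hr hw hD h189 h93 hcov
  have hcl : Run7.h315.CD.ClV (fun i => (D i).card) w (r ∘ src) (r ∘ dst) :=
    ⟨D, fun i => ⟨cn_of (hD i), le_rfl⟩, fun e he => hcov e he⟩
  have h3 := Run7.h315.CD.flow_modV Pool.Agent.Y335.FL.contract_all Pool.Agent.Y335.FL.quot'
    (fun i => (D i).card) w hw h189 h93 (s := src) (d := dst) (F := Finset.univ.biUnion C) (r := r)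
    (fun Y _ => by rw [Finset.sdiff_empty]; exact hb Y) hr hcl
  have hfl := Pool.Agent.Y335.FL.lift_all V E src dst m C (fun i => mod5 src dst (C i) (hC i))
    hnew h3
  obtain ⟨F, hF, hF0⟩ := int_flow src dst (nzf src dst hfl)
  have hF1 := (isFlow_iff src dst F).mpr hF0
  exact ⟨⟨F, hF1, hF⟩, fun q hq => charPoly_pos src dst F hF1 hF q hq⟩

/-- Bridgeless graphs with a connected vertex cover of at most 93 vertices. -/
theorem connected (V E : Type) [Fintype V] [DecidableEq V] [Fintype E] [DecidableEq E]
    (src dst : E → V) (D : Finset V) (hD : ConnectedSet src dst D) (h93 : D.card ≤ 93)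
    (hc : ∀ e, src e ≠ dst e → src e ∈ D ∨ dst e ∈ D)
    (hb : ∀ Y : Finset V, (boundary src dst Y).card ≠ 1) :
    ∃ f : E → ℤ, IsFlow src dst f ∧ ∀ e, 1 ≤ |f e| ∧ |f e| ≤ 4 := by
  classical
  have h : (D.card : ℝ) ≤ 93 := by exact_mod_cast h93
  refine (result V E Unit src dst 0 (fun _ => ∅) id (fun _ => D) (fun _ => 1) hb
    (fun i => i.elim0) (fun i => i.elim0) ⟨fun e he => by simp at he, fun v Y _ => Iff.rfl⟩
    (fun _ => zero_le_one) (fun _ => hD) ?_ ?_ (fun e he => ?_)).1
  · simp only [one_mul, Finset.univ_unique, Finset.sum_const, Finset.card_singleton, one_smul]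
    linarith
  · simp only [one_mul, Finset.univ_unique, Finset.sum_const, Finset.card_singleton, one_smul]
    exact max_le h (by norm_num)
  · have h2 := hc e he
    simp only [id]
    rw [Finset.univ_unique, Finset.sum_singleton, if_pos h2]

end Pool.Agent.Results.MP_974d84_co.ConnectedVertexCover
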