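import Mathlib
import Pool.Agent.TH497.PW.IntFlow
import Pool.Agent.TH362.FP.Pos
import Pool.Agent.Y335.FL.Main
import Pool.Agent.Y335.FL.Local11
import Pool.Agent.Run7.h85.FL.Ind

set_option autoImplicit false

/-!
# Nowhere-zero 5-flows in graphs without an induced minor isomorphic to a tree with 94 vertices

Let `T` be the tree with `94` vertices formed by the vertices with distance at most five from a fixed
vertex of the infinite cubic tree.  A *model* of `T` in the graph `G` consists of pairwise disjoint
connected vertex sets `B_t`, one for each vertex `t` of `T`, such that some edge joins `B_t` to `B_t'`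
if and only if `t` and `t'` are adjacent in `T` (`T` is an induced minor of `G`), and such that every
set `B_t` has at least three neighbours (this is a condition only for the 48 leaves `t` of `T`).

Every bridgeless multigraph without such a model of `T` has a nowhere-zero 5-flow, and the
characteristic polynomial of its bond matroid is positive at all integers `q ≥ 5`.  In particular this
holds if `T` is not an induced minor of `G`, or if an arbitrary induced subgraph or induced minor of
`T` is not an induced minor of `G`, for example

* `K_{1,48}` (contract the tree of the inner vertices of `T`); in particular if the neighbourhood of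
  every connected set of vertices contains at most 47 independent vertices (with at least three
  neighbours);
* 63 independent vertices (one of the two colour classes of `T` has 63 vertices): no independent set
  of 63 vertices with at least three neighbours (a special case of the starting result
  `IndependenceNumber`);
* 27 pairwise anticomplete paths with three vertices (so also 27 pairwise anticomplete edges);
* 13 pairwise anticomplete claws.

All these classes contain all complete graphs.  The starting result `ExcludedTree` excludes a tree
with 126 vertices as a minor and concerns only graphs of bounded pathwidth; the class considered here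
neither contains that class nor is contained in it.

More generally let `F` be the union of a chain of cycles, each with at most eleven edges outside the
union of the earlier ones; it is sufficient that the contracted graph `G / F` has no such model of
`T`.

Proof.  The class is closed under contractions: the preimages of the sets `B_t` form a model, too.
Let `G` be a counterexample with as few edges as possible.  Circuits with at most eleven edges can be
contracted (starting library `Y335/FL`), and so can one of two edges which form a cut; hence `G` has
girth at least twelve and all degrees are at least three (apart from isolated vertices).  The vertices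
with the addresses of the starting file `H173FL/Tree` (words of length at most five on one side of an
edge, of length at most four on the other side) are different; here we show that two of them are
adjacent only if their addresses are adjacent in `T`, because another edge would form a circuit with
at most eleven edges.  So `T` is an induced subgraph of `G`.  Finally a flow of `G / F` is lifted
along the chain (library `Y335/FL`; helper335, `Run7/h335/MF/Mod`).
-/

namespace Pool.Agent.Results.MP_974d84_co.ExcludedInducedTree

open Pool.Agent.TH497.PW

variable {V E : Type}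

/-- The edges with exactly one end in `X`. -/
def boundary [DecidableEq V] [Fintype E] (src dst : E → V) (X : Finset V) : Finset E :=
  Finset.univ.filter (fun e => ¬ (src e ∈ X ↔ dst e ∈ X))

/-- The label `t` (a side and a word) is a vertex of the tree `T`: the words on the side `false` have
at most five letters, and those on the side `true` have at most four letters. -/
def IsAddress (t : Bool × List Bool) : Prop := t.2.length ≤ 5 ∧ (t.1 = true → t.2.length ≤ 4)

/-- The pairs of adjacent vertices of the tree `T`: the roots `(false, [])` and `(true, [])` of the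
two binary trees are adjacent, and `(b, w)` is adjacent to its children `(b, false :: w)` and
`(b, true :: w)` as long as these are vertices of `T`. -/
inductive TreeEdge : Bool × List Bool → Bool × List Bool → Prop
  | root : TreeEdge (false, []) (true, [])
  | child (b c : Bool) (w : List Bool) (h : IsAddress (b, c :: w)) : TreeEdge (b, w) (b, c :: w)

/-- The edges of `G` which join two vertices with the labels `t` and `t'`. -/
def Joins (src dst : E → V) (β : V → Option (Bool × List Bool)) (t t' : Bool × List Bool) (e : E) :
    Prop :=
  (β (src e) = some t ∧ β (dst e) = some t') ∨ (β (dst e) = some t ∧ β (src e) = some t')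

/-- The vertices without the label `t` which are joined by an edge to a vertex with the label `t`. -/
def neighbours (src dst : E → V) (β : V → Option (Bool × List Bool)) (t : Bool × List Bool) :
    Set V :=
  {v | β v ≠ some t ∧ ∃ e, (src e = v ∧ β (dst e) = some t) ∨ (dst e = v ∧ β (src e) = some t)}

/-- The graph has a model of the tree `T` (as an induced minor): some vertices are labelled by
vertices of `T` such that
* the vertices with the same label `t` span a connected subgraph (for every set `X` of vertices which
  contains some but not all of them, an edge with both ends among them has exactly one end in `X`);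
* some edge joins a vertex with the label `t` to a vertex with the label `t'` for adjacent vertices
  `t`, `t'` of `T`;
* no edge joins vertices with different labels `t`, `t'` which are not adjacent in `T`;
* the set of the vertices with the label `t` has at least three neighbours, for each vertex `t`
  of `T`. -/
def HasInducedTreeModel (src dst : E → V) : Prop :=
  ∃ β : V → Option (Bool × List Bool),
    (∀ v t, β v = some t → IsAddress t) ∧
    (∀ t, ∀ X : Set V, (∃ v ∈ X, β v = some t) → (∃ v ∉ X, β v = some t) →
      ∃ e, Joins src dst β t t e ∧ ¬ (src e ∈ X ↔ dst e ∈ X)) ∧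
    (∀ t t', TreeEdge t t' → ∃ e, Joins src dst β t t' e) ∧
    (∀ t t' e, Joins src dst β t t' e → t = t' ∨ TreeEdge t t' ∨ TreeEdge t' t) ∧
    ∀ t, IsAddress t → 3 ≤ (neighbours src dst β t).ncard

/-- The map `r` contracts the edges of `F` and nothing else: the ends of every edge of `F` have the
same image, and no set `Y` of vertices without boundary edges in `F` separates `v` and `r v` (so `v`
and `r v` are in the same component of the graph formed by the edges of `F`). The contracted graph
`G / F` is the graph in which the ends of the edge `e` are `r (src e)` and `r (dst e)`. -/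
def Contracts [DecidableEq V] [Fintype E] (src dst : E → V) (F : Finset E) (r : V → V) : Prop :=
  (∀ e ∈ F, r (src e) = r (dst e)) ∧
    ∀ v, ∀ Y : Finset V, Disjoint (boundary src dst Y) F → (v ∈ Y ↔ r v ∈ Y)

/-- Kirchhoff's law. -/
def IsFlow [DecidableEq V] [Fintype E] (src dst : E → V) (f : E → ℤ) : Prop :=
  ∀ v : V, ∑ e ∈ Finset.univ.filter (fun e => src e = v), f e
    = ∑ e ∈ Finset.univ.filter (fun e => dst e = v), f e

/-- The number of the components of the graph with the vertices `V` and the edges `A`. -/
noncomputable def components (src dst : E → V) (A : Finset E) : ℕ :=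
  Nat.card (SimpleGraph.fromRel
    (fun u v : V => ∃ e ∈ A, src e = u ∧ dst e = v)).ConnectedComponent

/-- The rank of `A` in the cycle matroid of the graph. -/
noncomputable def cycleRank [Fintype V] (src dst : E → V) (A : Finset E) : ℕ :=
  Fintype.card V - components src dst A

/-- The rank of `A` in the bond matroid of the graph (the dual of the cycle matroid). -/
noncomputable def bondRank [Fintype V] [Fintype E] [DecidableEq E] (src dst : E → V)
    (A : Finset E) : ℕ :=
  A.card + cycleRank src dst Aᶜ - cycleRank src dst Finset.univ

/-- The characteristic polynomial of the bond matroid at the integer `x`. -/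
noncomputable def bondCharPoly [Fintype V] [Fintype E] [DecidableEq E] (src dst : E → V)
    (x : ℤ) : ℤ :=
  ∑ A : Finset E, (-1) ^ A.card * x ^ (bondRank src dst Finset.univ - bondRank src dst A)

theorem isFlow_iff [DecidableEq V] [Fintype E] (src dst : E → V) (f : E → ℤ) :
    IsFlow src dst f ↔
      ∀ v, ∑ e, f e * ((if src e = v then 1 else 0) - (if dst e = v then 1 else 0)) = 0 := by
  unfold IsFlow
  refine forall_congr' fun v => ?_
  rw [Finset.sum_filter, Finset.sum_filter, ← sub_eq_zero, ← Finset.sum_sub_distrib]
  have : ∀ e, (if src e = v then f e else 0) - (if dst e = v then f e else 0)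
      = f e * ((if src e = v then 1 else 0) - (if dst e = v then 1 else 0)) := by
    intro e
    by_cases h1 : src e = v <;> by_cases h2 : dst e = v <;> simp [h1, h2]
  rw [Finset.sum_congr rfl (fun e _ => this e)]

theorem nzf [Fintype V] [DecidableEq V] [Fintype E] [DecidableEq E] (src dst : E → V)
    (h : Pool.Agent.TH676.Z.FlowOn src dst ∅ ∅) : NZF src dst := by
  obtain ⟨f, h1, _, h3⟩ := h
  refine ⟨f, fun e => h3 e (Finset.notMem_empty _) (Finset.notMem_empty _), fun x => ?_⟩
  rw [← h1 x]
  unfold Pool.Agent.TH676.Z.bd
  refine Finset.sum_congr rfl fun e _ => ?_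
  unfold ic
  by_cases h4 : src e = x <;> by_cases h5 : dst e = x <;> simp [h4, h5]

theorem charPoly_pos [Fintype V] [DecidableEq V] [Fintype E] [DecidableEq E] (src dst : E → V)
    (f : E → ℤ) (h1 : IsFlow src dst f) (h2 : ∀ e, 1 ≤ |f e| ∧ |f e| ≤ 4) (q : ℕ) (hq : 5 ≤ q) :
    0 < bondCharPoly src dst q :=
  Pool.Agent.TH362.FP.chr_pos src dst f h2 h1 q hq

theorem treeEdge_of {t t' : Bool × List Bool} (h : Pool.Agent.Run7.H85.FL.Ted t t') :
    TreeEdge t t' := by
  rcases h with ⟨rfl, rfl⟩ | ⟨c, h1, h2⟩
  · exact TreeEdge.root
  · obtain ⟨b, w⟩ := t
    subst h2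
    exact TreeEdge.child b c w h1

theorem ted_of {t t' : Bool × List Bool} (h : TreeEdge t t') :
    Pool.Agent.Run7.H85.FL.Ted t t' := by
  cases h with
  | root => exact Or.inl ⟨rfl, rfl⟩
  | child b c w h => exact Or.inr ⟨c, h, rfl⟩

theorem indMinor_of [Fintype V] (src dst : E → V)
    (h : Pool.Agent.Run7.H85.FL.IndMinor src dst) : HasInducedTreeModel src dst := by
  obtain ⟨β, h0, h1, h2, h3, h4⟩ := h
  refine ⟨β, h0, ?_, fun t t' h => h2 t t' (ted_of h), ?_, fun t ht => h4 t ht⟩
  · intro t X hv hv'
    obtain ⟨v, hvX, hvt⟩ := hv
    obtain ⟨v', hvX', hvt'⟩ := hv'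
    obtain ⟨e, a1, a2, a3⟩ := h1 t (fun v => v ∈ X) ⟨v, hvX, hvt⟩ ⟨v', hvX', hvt'⟩
    exact ⟨e, Or.inl ⟨a1, a2⟩, a3⟩
  · rintro t t' e (⟨a, b⟩ | ⟨a, b⟩)
    · rcases h3 e t t' a b with h | h | h
      · exact Or.inl h
      · exact Or.inr (Or.inl (treeEdge_of h))
      · exact Or.inr (Or.inr (treeEdge_of h))
    · rcases h3 e t' t b a with h | h | h
      · exact Or.inl h.symm
      · exact Or.inr (Or.inr (treeEdge_of h))
      · exact Or.inr (Or.inl (treeEdge_of h))

theorem conclude [Fintype V] [DecidableEq V] [Fintype E] [DecidableEq E] (src dst : E → V)
    (h : Pool.Agent.TH676.Z.FlowOn src dst ∅ ∅) :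
    (∃ f : E → ℤ, IsFlow src dst f ∧ ∀ e, 1 ≤ |f e| ∧ |f e| ≤ 4) ∧
      ∀ q : ℕ, 5 ≤ q → 0 < bondCharPoly src dst q := by
  obtain ⟨F, hF, hF0⟩ := int_flow src dst (nzf src dst h)
  have hF1 := (isFlow_iff src dst F).mpr hF0
  exact ⟨⟨F, hF1, hF⟩, fun q hq => charPoly_pos src dst F hF1 hF q hq⟩

/-- the reduction modulo five of a flow with values in `{0, 1, -1}` -/
theorem mod5 [Fintype V] [DecidableEq V] [Fintype E] [DecidableEq E] (src dst : E → V)
    (C : Finset E) (h : ∃ z : E → ℤ, IsFlow src dst z ∧ (∀ e, z e = 0 ∨ z e = 1 ∨ z e = -1) ∧
      ∀ e, z e ≠ 0 ↔ e ∈ C) :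
    ∃ z : E → ZMod 5, (∀ v, Pool.Agent.TH676.Z.bd src dst z v = 0) ∧
      (∀ e, z e = 0 ∨ z e = 1 ∨ z e = -1) ∧ ∀ e, z e ≠ 0 ↔ e ∈ C := by
  obtain ⟨z, h1, h2, h3⟩ := h
  refine ⟨fun e => ((z e : ℤ) : ZMod 5), fun v => ?_, fun e => ?_, fun e => ?_⟩
  · have h4 := h1 v
    rw [Finset.sum_filter, Finset.sum_filter, ← sub_eq_zero, ← Finset.sum_sub_distrib] at h4
    have h5 := congrArg (fun t : ℤ => (t : ZMod 5)) h4
    simp only [Int.cast_sum, Int.cast_sub, Int.cast_zero] at h5
    refine Eq.trans ?_ h5
    unfold Pool.Agent.TH676.Z.bd
    rw [Finset.sum_sub_distrib, Finset.sum_sub_distrib]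
    congr 1 <;>
    · refine Finset.sum_congr rfl fun e _ => ?_
      split_ifs <;> simp
  · rcases h2 e with h | h | h <;> simp [h]
  · rw [← h3 e]
    have h10 : (1 : ZMod 5) ≠ 0 := by decide
    rcases h2 e with h | h | h <;> simp [h, h10]

/-- **Theorem.** Let `src dst : E → V` be a finite multigraph (loops and parallel edges allowed)
without an edge cut consisting of exactly one edge, let `C` be a chain of cycles each of which has at
most eleven edges outside of the union of the earlier ones (for instance the empty chain), and let `r`
contract the union of the chain.  If the contracted graph has no induced model (all of whose branch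
sets have at least three neighbours) of the tree `T` with 94 vertices, the ball of radius five around
a vertex of the cubic tree, then the graph has an integer flow with values in `{±1, ±2, ±3, ±4}`, and
the characteristic polynomial of its bond matroid is positive at all integers `q ≥ 5`. -/
theorem result :
    ∀ (V E : Type) [Fintype V] [DecidableEq V] [Fintype E] [DecidableEq E] (src dst : E → V)
      (m : ℕ) (C : Fin m → Finset E) (r : V → V),
      (∀ Y : Finset V, (boundary src dst Y).card ≠ 1) →
      (∀ i, ∃ z : E → ℤ, IsFlow src dst z ∧ (∀ e, z e = 0 ∨ z e = 1 ∨ z e = -1) ∧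
        ∀ e, z e ≠ 0 ↔ e ∈ C i) →
      (∀ i, (C i \ (Finset.univ.filter (fun j => j < i)).biUnion C).card ≤ 11) →
      Contracts src dst (Finset.univ.biUnion C) r →
      ¬ HasInducedTreeModel (r ∘ src) (r ∘ dst) →
      (∃ f : E → ℤ, IsFlow src dst f ∧ ∀ e, 1 ≤ |f e| ∧ |f e| ≤ 4) ∧
      ∀ q : ℕ, 5 ≤ q → 0 < bondCharPoly src dst q := by
  intro V E _ _ _ _ src dst m C r hb hC hnew hr hT
  have h3 := Pool.Agent.Run7.H85.FL.flow_ind_mod Pool.Agent.Y335.FL.contract_all
    Pool.Agent.Y335.FL.quot' (s := src) (d := dst) (F := Finset.univ.biUnion C) (r := r)
    (fun Y _ => by rw [Finset.sdiff_empty]; exact hb Y) hr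
    (fun h => hT (indMinor_of (r ∘ src) (r ∘ dst) h))
  exact conclude src dst
    (Pool.Agent.Y335.FL.lift_all V E src dst m C (fun i => mod5 src dst (C i) (hC i)) hnew h3)

/-- Consequence: graphs without an induced minor isomorphic to `T`. -/
theorem excludedInducedMinor (V E : Type) [Fintype V] [DecidableEq V] [Fintype E] [DecidableEq E]
    (src dst : E → V) (hb : ∀ Y : Finset V, (boundary src dst Y).card ≠ 1)
    (h : ¬ HasInducedTreeModel src dst) :
    ∃ f : E → ℤ, IsFlow src dst f ∧ ∀ e, 1 ≤ |f e| ∧ |f e| ≤ 4 :=
  (result V E src dst 0 (fun _ => ∅) id hb (fun i => i.elim0) (fun i => i.elim0)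
    ⟨fun e he => by simp at he, fun v Y _ => Iff.rfl⟩ h).1

end Pool.Agent.Results.MP_974d84_co.ExcludedInducedTree
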