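import Mathlib
import Pool.Agent.TH497.PW.IntFlow
import Pool.Agent.TH362.FP.Pos
import Pool.Agent.Y335.FL.Main
import Pool.Agent.Run7.h677.Dom.Main

set_option autoImplicit false

/-!
# Graphs of small radius and graphs of small domination number (MP_974d84_co)

Let `G` be a bridgeless multigraph and let `S` be a set of at most `s` vertices such that every
vertex of `G` which is not isolated is at distance at most `r` from `S`, where `(r, s)` is one of
`(1, 24)`, `(2, 12)`, `(3, 4)`, `(4, 2)`, `(5, 1)`.  Then `G` has a nowhere-zero 5-flow, and the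
characteristic polynomial of its bond matroid is positive at all integers `q ≥ 5`.  In particular
this holds for all connected bridgeless graphs of radius at most five and for all bridgeless graphs
with domination number at most 24.

Proof.  The class is closed under contractions.  Let `G` be a counterexample with as few edges as
possible.  Circuits with at most eleven edges can be contracted (library `Y335/FL` of helper335),
and so can one of two edges which form a cut; hence `G` has girth at least twelve and all degrees
are at least three (apart from isolated vertices), so that `G` has at least 126 vertices.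
Distribute the vertices to the nearest elements of `S`; the cells are trees of depth at most `r`
and they are induced subgraphs.  Two edges between two cells with ends `x, x'` in the first one
form with the trees a circuit with at most `d(x, x') + 2 + 2 r` edges.  For `r = 5` the deepest
vertex has degree one, for `r = 4` its neighbours are in three different cells.  For `r = 3` one
considers the second neighbours of a deepest vertex.  For `r ≤ 2` there is at most one edge between
two cells, and one counts; for `r = 1` the graph formed by the cells has moreover no triangles, and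
two cells with neighbours in the same leaf have no common neighbours except for the cell of the
leaf.
-/

namespace Pool.Agent.Results.MP_974d84_co.FewBalls

open Pool.Agent.TH497.PW

variable {V E : Type}

/-- The edges with exactly one end in `X`. -/
def boundary [DecidableEq V] [Fintype E] (src dst : E → V) (X : Finset V) : Finset E :=
  Finset.univ.filter (fun e => ¬ (src e ∈ X ↔ dst e ∈ X))

/-- Kirchhoff's law. -/
def IsFlow [DecidableEq V] [Fintype E] (src dst : E → V) (f : E → ℤ) : Prop :=
  ∀ v : V, ∑ e ∈ Finset.univ.filter (fun e => src e = v), f e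
    = ∑ e ∈ Finset.univ.filter (fun e => dst e = v), f e

/-- The simple graph whose edges are the edges of the multigraph which are not loops. -/
def simple (src dst : E → V) : SimpleGraph V :=
  SimpleGraph.fromRel (fun u v : V => ∃ e, src e = u ∧ dst e = v)

/-- `x` is at distance at most `r` from `S`. -/
def Within (src dst : E → V) (S : Finset V) (r : ℕ) (x : V) : Prop :=
  ∃ c ∈ S, ∃ p : (simple src dst).Walk x c, p.length ≤ r

/-- The number of the components of the graph with the vertices `V` and the edges `A`. -/
noncomputable def components (src dst : E → V) (A : Finset E) : ℕ :=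
  Nat.card (SimpleGraph.fromRel
    (fun u v : V => ∃ e ∈ A, src e = u ∧ dst e = v)).ConnectedComponent

/-- The rank of `A` in the cycle matroid of the graph. -/
noncomputable def cycleRank [Fintype V] (src dst : E → V) (A : Finset E) : ℕ :=
  Fintype.card V - components src dst A

/-- The rank of `A` in the bond matroid of the graph (the dual of the cycle matroid). -/
noncomputable def bondRank [Fintype V] [Fintype E] [DecidableEq E] (src dst : E → V)
    (A : Finset E) : ℕ :=
  A.card + cycleRank src dst Aᶜ - cycleRank src dst Finset.univ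

/-- The characteristic polynomial of the bond matroid at the integer `x`. -/
noncomputable def bondCharPoly [Fintype V] [Fintype E] [DecidableEq E] (src dst : E → V)
    (x : ℤ) : ℤ :=
  ∑ A : Finset E, (-1) ^ A.card * x ^ (bondRank src dst Finset.univ - bondRank src dst A)

theorem isFlow_iff [DecidableEq V] [Fintype E] (src dst : E → V) (f : E → ℤ) :
    IsFlow src dst f ↔
      ∀ v, ∑ e, f e * ((if src e = v then 1 else 0) - (if dst e = v then 1 else 0)) = 0 := by
  unfold IsFlow
  refine forall_congr' fun v => ?_
  rw [Finset.sum_filter, Finset.sum_filter, ← sub_eq_zero, ← Finset.sum_sub_distrib]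
  have : ∀ e, (if src e = v then f e else 0) - (if dst e = v then f e else 0)
      = f e * ((if src e = v then 1 else 0) - (if dst e = v then 1 else 0)) := by
    intro e
    by_cases h1 : src e = v <;> by_cases h2 : dst e = v <;> simp [h1, h2]
  rw [Finset.sum_congr rfl (fun e _ => this e)]

theorem nzf [Fintype V] [DecidableEq V] [Fintype E] [DecidableEq E] (src dst : E → V)
    (h : Pool.Agent.TH676.Z.FlowOn src dst ∅ ∅) : NZF src dst := by
  obtain ⟨f, h1, _, h3⟩ := h
  refine ⟨f, fun e => h3 e (Finset.notMem_empty _) (Finset.notMem_empty _), fun x => ?_⟩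
  rw [← h1 x]
  unfold Pool.Agent.TH676.Z.bd
  refine Finset.sum_congr rfl fun e _ => ?_
  unfold ic
  by_cases h4 : src e = x <;> by_cases h5 : dst e = x <;> simp [h4, h5]

theorem charPoly_pos [Fintype V] [DecidableEq V] [Fintype E] [DecidableEq E] (src dst : E → V)
    (f : E → ℤ) (h1 : IsFlow src dst f) (h2 : ∀ e, 1 ≤ |f e| ∧ |f e| ≤ 4) (q : ℕ) (hq : 5 ≤ q) :
    0 < bondCharPoly src dst q :=
  Pool.Agent.TH362.FP.chr_pos src dst f h2 h1 q hq

theorem simple_adj (src dst : E → V) (x y : V) :
    (simple src dst).Adj x y ↔ (Run7.h677.Dom.gr src dst).Adj x y := by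
  unfold simple
  rw [SimpleGraph.fromRel_adj]
  constructor
  · rintro ⟨h, ⟨e, h1, h2⟩ | ⟨e, h1, h2⟩⟩
    · exact ⟨h, e, Or.inl ⟨h1, h2⟩⟩
    · exact ⟨h, e, Or.inr ⟨h1, h2⟩⟩
  · rintro ⟨h, e, ⟨h1, h2⟩ | ⟨h1, h2⟩⟩
    · exact ⟨h, Or.inl ⟨e, h1, h2⟩⟩
    · exact ⟨h, Or.inr ⟨e, h1, h2⟩⟩

theorem within_W [Fintype V] [DecidableEq V] (src dst : E → V) (S : Finset V) : ∀ (r : ℕ) (x c : V), c ∈ S →
    ∀ p : (simple src dst).Walk x c, p.length ≤ r →
      Run7.h677.Dom.W (Run7.h677.Dom.gr src dst) S r x := by
  intro r
  induction r with
  | zero =>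
    intro x c hc p hp
    cases p with
    | nil => exact hc
    | cons h q =>
      rw [SimpleGraph.Walk.length_cons] at hp
      omega
  | succ r ih =>
    intro x c hc p hp
    cases p with
    | nil => exact Run7.h677.Dom.W_mono (Nat.zero_le _) hc
    | cons h q =>
      rw [SimpleGraph.Walk.length_cons] at hp
      exact Or.inr ⟨_, (simple_adj src dst _ _).1 h, ih _ c hc q (by omega)⟩

theorem result :
    ∀ (V E : Type) [Fintype V] [DecidableEq V] [Fintype E] [DecidableEq E] (src dst : E → V)
      (S : Finset V) (r s : ℕ),
      ((r = 1 ∧ s = 24) ∨ (r = 2 ∧ s = 12) ∨ (r = 3 ∧ s = 4) ∨ (r = 4 ∧ s = 2) ∨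
        (r = 5 ∧ s = 1)) →
      S.card ≤ s →
      (∀ e, src e ≠ dst e → Within src dst S r (src e) ∧ Within src dst S r (dst e)) →
      (∀ Y : Finset V, (boundary src dst Y).card ≠ 1) →
      (∃ f : E → ℤ, IsFlow src dst f ∧ ∀ e, 1 ≤ |f e| ∧ |f e| ≤ 4) ∧
      ∀ q : ℕ, 5 ≤ q → 0 < bondCharPoly src dst q := by
  intro V E _ _ _ _ src dst S r s hrs hS hW hb
  have hcl : Run7.h677.Dom.ClD r s src dst := by
    refine ⟨S, hS, ?_⟩
    rintro x y ⟨hxy, e, ⟨rfl, rfl⟩ | ⟨rfl, rfl⟩⟩
    · obtain ⟨c, hc, p, hp⟩ := (hW e hxy).1
      exact within_W src dst S r _ c hc p hp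
    · obtain ⟨c, hc, p, hp⟩ := (hW e hxy.symm).2
      exact within_W src dst S r _ c hc p hp
  have hfl := Run7.h677.Dom.flow_of_ClD Pool.Agent.Y335.FL.contract_all src dst hrs hcl
    (fun Y _ => by rw [Finset.sdiff_empty]; exact hb Y)
  obtain ⟨F, hF, hF0⟩ := int_flow src dst (nzf src dst hfl)
  have hF1 := (isFlow_iff src dst F).mpr hF0
  exact ⟨⟨F, hF1, hF⟩, fun q hq => charPoly_pos src dst F hF1 hF q hq⟩

end Pool.Agent.Results.MP_974d84_co.FewBalls
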